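import Mathlib

/-!
# A graph whose reduced Laplacians have prescribed coranks

`f` is a walk on the natural numbers with steps `-1`, `0`, `1` that starts at `0`.  There is a graph on
the natural numbers and one more vertex such that the reduced Laplacian modulo two of the graph on
the first `n` vertices and the additional one has corank `f n`, for every `n`.  The up steps are
isolated vertices, the horizontal steps are vertices joined to the additional vertex only, and the
down steps are vertices joined to the additional vertex and to the last up step that is not yet used.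
-/

set_option autoImplicit false

namespace Pool.Agent.K1H6.PR

open Finset

/-- a walk with steps `-1`, `0`, `1` that starts at `0` -/
def Walk (f : ℕ → ℕ) : Prop := f 0 = 0 ∧ ∀ n, f (n + 1) ≤ f n + 1 ∧ f n ≤ f (n + 1) + 1

/-- the down step `n` is matched with `j` -/
def Mt (f : ℕ → ℕ) (j n : ℕ) : Prop :=
  j < n ∧ f (n + 1) + 1 = f n ∧ f j = f (n + 1) ∧ ∀ i, j < i → i ≤ n → f (n + 1) < f i

lemma Mt.up {f : ℕ → ℕ} (hf : Walk f) {j n : ℕ} (h : Mt f j n) : f (j + 1) = f j + 1 := by
  obtain ⟨h1, h2, h3, h4⟩ := h
  have := h4 (j + 1) (by omega) (by omega)
  have := (hf.2 j).1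
  omega

lemma Mt.left {f : ℕ → ℕ} {j j' n : ℕ} (h : Mt f j n) (h' : Mt f j' n) : j = j' := by
  obtain ⟨h1, h2, h3, h4⟩ := h
  obtain ⟨k1, k2, k3, k4⟩ := h'
  rcases lt_trichotomy j j' with h5 | h5 | h5
  · have := h4 j' h5 (by omega)
    omega
  · exact h5
  · have := k4 j h5 (by omega)
    omega

lemma Mt.right {f : ℕ → ℕ} {j n n' : ℕ} (h : Mt f j n) (h' : Mt f j n') : n = n' := by
  obtain ⟨h1, h2, h3, h4⟩ := h
  obtain ⟨k1, k2, k3, k4⟩ := h'
  rcases lt_trichotomy n n' with h5 | h5 | h5
  · have := k4 (n + 1) (by omega) (by omega)
    omega
  · exact h5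
  · have := h4 (n' + 1) (by omega) (by omega)
    omega

lemma exists_Mt {f : ℕ → ℕ} (hf : Walk f) {n : ℕ} (h : f (n + 1) + 1 = f n) : ∃ j, Mt f j n := by
  classical
  have hne : ((range (n + 1)).filter fun j => f j ≤ f (n + 1)).Nonempty :=
    ⟨0, by rw [mem_filter, mem_range, hf.1]; omega⟩
  obtain ⟨j, hj⟩ : ∃ j, j = ((range (n + 1)).filter fun j => f j ≤ f (n + 1)).max' hne := ⟨_, rfl⟩
  have h1 : j ∈ (range (n + 1)).filter fun j => f j ≤ f (n + 1) := by
    rw [hj]
    exact max'_mem _ _
  rw [mem_filter, mem_range] at h1
  have h2 : ∀ i, j < i → i ≤ n → f (n + 1) < f i := by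
    intro i hi hin
    by_contra hcon
    have := le_max' ((range (n + 1)).filter fun j => f j ≤ f (n + 1)) i (by
      rw [mem_filter, mem_range]
      omega)
    omega
  have h3 : j ≠ n := by
    rintro rfl
    omega
  have h4 := h2 (j + 1) (by omega) (by omega)
  have h5 := (hf.2 j).1
  exact ⟨j, by omega, h, by omega, h2⟩

open Classical in
/-- the weights of the edges to the additional vertex -/
noncomputable def wv (f : ℕ → ℕ) (j : ℕ) : Bool := decide (¬ f (j + 1) = f j + 1)

open Classical in
/-- the edges -/
noncomputable def wx (f : ℕ → ℕ) (j k : ℕ) : Bool := decide (Mt f j k ∨ Mt f k j)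

lemma wx_symm (f : ℕ → ℕ) (j k : ℕ) : wx f j k = wx f k j := by
  unfold wx
  congr 1
  exact propext or_comm

/-- `0` and `1` modulo two -/
def b2 (b : Bool) : ZMod 2 := if b then 1 else 0

/-- the kernel modulo two of the reduced Laplacian of a graph on `Fin n` and one more vertex -/
def KerL {ι : Type} [Fintype ι] (x : ι → ι → ZMod 2) (v : ι → ZMod 2) : Set (ι → ZMod 2) :=
  {w | ∀ j, v j * w j + ∑ k, x j k * (w k + w j) = 0}

open Classical in
/-- the up steps that are not yet used -/
noncomputable def Free (f : ℕ → ℕ) (n : ℕ) : Finset ℕ :=
  (range n).filter fun i => f (i + 1) = f i + 1 ∧ ∀ k < n, ¬ Mt f i k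

lemma card_Free {f : ℕ → ℕ} (hf : Walk f) (n : ℕ) : (Free f n).card = f n := by
  classical
  induction n with
  | zero =>
    unfold Free
    rw [range_zero, filter_empty, card_empty, hf.1]
  | succ n ih =>
    have hlt : ∀ {i k : ℕ}, Mt f i k → i < k := fun h => h.1
    obtain ⟨s1, s2⟩ := hf.2 n
    rcases (by omega : f (n + 1) = f n + 1 ∨ f (n + 1) = f n ∨ f (n + 1) + 1 = f n) with h | h | h
    · have e : Free f (n + 1) = insert n (Free f n) := by
        ext i
        unfold Free
        rw [mem_insert, mem_filter, mem_filter, mem_range, mem_range]
        constructor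
        · rintro ⟨h1, h2, h3⟩
          rcases (by omega : i = n ∨ i < n) with h4 | h4
          · exact Or.inl h4
          · exact Or.inr ⟨h4, h2, fun k hk => h3 k (by omega)⟩
        · rintro (rfl | ⟨h1, h2, h3⟩)
          · exact ⟨by omega, h, fun k hk hM => by have := hlt hM; omega⟩
          · refine ⟨by omega, h2, fun k hk hM => ?_⟩
            rcases (by omega : k = n ∨ k < n) with h4 | h4
            · rw [h4] at hM
              have := hM.2.1
              omega
            · exact h3 k h4 hM
      rw [e, card_insert_of_notMem, ih, h]
      unfold Free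
      rw [mem_filter, mem_range]
      omega
    · have e : Free f (n + 1) = Free f n := by
        ext i
        unfold Free
        rw [mem_filter, mem_filter, mem_range, mem_range]
        constructor
        · rintro ⟨h1, h2, h3⟩
          have h4 : i ≠ n := by
            rintro rfl
            omega
          exact ⟨by omega, h2, fun k hk => h3 k (by omega)⟩
        · rintro ⟨h1, h2, h3⟩
          refine ⟨by omega, h2, fun k hk hM => ?_⟩
          rcases (by omega : k = n ∨ k < n) with h4 | h4
          · rw [h4] at hM
            have := hM.2.1
            omega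
          · exact h3 k h4 hM
      rw [e, ih, h]
    · obtain ⟨j, hj⟩ := exists_Mt hf h
      have hjF : j ∈ Free f n := by
        unfold Free
        rw [mem_filter, mem_range]
        exact ⟨hj.1, hj.up hf, fun k hk hM => by have := hM.right hj; omega⟩
      have e : Free f (n + 1) = (Free f n).erase j := by
        ext i
        unfold Free
        rw [mem_erase, mem_filter, mem_filter, mem_range, mem_range]
        constructor
        · rintro ⟨h1, h2, h3⟩
          have h4 : i ≠ n := by
            rintro rfl
            omega
          exact ⟨fun h5 => h3 n (by omega) (h5 ▸ hj), by omega, h2, fun k hk => h3 k (by omega)⟩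
        · rintro ⟨h0, h1, h2, h3⟩
          refine ⟨by omega, h2, fun k hk hM => ?_⟩
          rcases (by omega : k = n ∨ k < n) with h4 | h4
          · rw [h4] at hM
            exact h0 (hM.left hj)
          · exact h3 k h4 hM
      rw [e, card_erase_of_mem hjF, ih]
      omega

lemma KerL_eq {f : ℕ → ℕ} (hf : Walk f) (n : ℕ) :
    KerL (fun j k : Fin n => b2 (wx f j k)) (fun j : Fin n => b2 (wv f j)) =
      {w | ∀ i : Fin n, (i : ℕ) ∉ Free f n → w i = 0} := by
  classical
  have hz : ∀ a : ZMod 2, a + a = 0 := by decide
  ext w
  constructor
  · intro hw i hi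
    have hi' := hw i
    obtain ⟨s1, s2⟩ := hf.2 i
    rcases (by omega : f (i + 1) = f i + 1 ∨ f (i + 1) = f i ∨ f ((i : ℕ) + 1) + 1 = f i) with
      h | h | h
    · -- an up step that is used
      have h1 : ∃ k < n, Mt f i k := by
        by_contra hcon
        push Not at hcon
        apply hi
        unfold Free
        rw [mem_filter, mem_range]
        exact ⟨i.2, h, hcon⟩
      obtain ⟨k, hk, hM⟩ := h1
      have e1 : b2 (wv f i) = 0 := by
        unfold wv b2
        simp [h]
      have hsum : ∑ l : Fin n, b2 (wx f i l) * (w l + w i) = w ⟨k, hk⟩ + w i := by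
        rw [sum_eq_single (⟨k, hk⟩ : Fin n)]
        · have : wx f i k = true := by
            unfold wx
            simp [hM]
          show b2 (wx f i k) * _ = _
          rw [this]
          unfold b2
          simp
        · intro l _ hl
          have : wx f i l = false := by
            unfold wx
            rw [decide_eq_false_iff_not]
            rintro (h5 | h5)
            · exact hl (Fin.ext (h5.right hM))
            · have := h5.2.1
              omega
          rw [this]
          unfold b2
          simp
        · intro h5
          exact absurd (mem_univ _) h5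
      have hi2 : b2 (wv f i) * w i + ∑ l : Fin n, b2 (wx f i l) * (w l + w i) = 0 := hi'
      rw [e1, hsum, zero_mul, zero_add] at hi2
      -- the equation at k
      have hk' : b2 (wv f k) * w ⟨k, hk⟩ + ∑ l : Fin n, b2 (wx f k l) * (w l + w ⟨k, hk⟩) = 0 :=
        hw ⟨k, hk⟩
      have e2 : b2 (wv f k) = 1 := by
        have := hM.2.1
        have h6 : ¬ f (k + 1) = f k + 1 := by omega
        unfold wv b2
        simp [h6]
      have hsum2 : ∑ l : Fin n, b2 (wx f k l) * (w l + w ⟨k, hk⟩) = w i + w ⟨k, hk⟩ := by
        rw [sum_eq_single i]
        · have : wx f k i = true := by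
            unfold wx
            simp [hM]
          rw [this]
          unfold b2
          simp
        · intro l _ hl
          have : wx f k l = false := by
            unfold wx
            rw [decide_eq_false_iff_not]
            rintro (h5 | h5)
            · have := h5.up hf
              have := hM.2.1
              omega
            · exact hl (Fin.ext (h5.left hM))
          rw [this]
          unfold b2
          simp
        · intro h5
          exact absurd (mem_univ _) h5
      rw [e2, hsum2, one_mul] at hk'
      have h7 : w ⟨k, hk⟩ + (w i + w ⟨k, hk⟩) = w i + (w ⟨k, hk⟩ + w ⟨k, hk⟩) := by ring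
      rw [h7, hz, add_zero] at hk'
      exact hk'
    · -- a horizontal step
      have e1 : b2 (wv f i) = 1 := by
        have h6 : ¬ f ((i : ℕ) + 1) = f i + 1 := by omega
        unfold wv b2
        simp [h6]
      have hsum : ∑ l : Fin n, b2 (wx f i l) * (w l + w i) = 0 := by
        apply sum_eq_zero
        intro l _
        have : wx f i l = false := by
          unfold wx
          rw [decide_eq_false_iff_not]
          rintro (h5 | h5)
          · have := h5.up hf
            omega
          · have := h5.2.1
            omega
        rw [this]
        unfold b2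
        simp
      have hi2 : b2 (wv f i) * w i + ∑ l : Fin n, b2 (wx f i l) * (w l + w i) = 0 := hi'
      rw [e1, hsum, one_mul, add_zero] at hi2
      exact hi2
    · -- a down step
      obtain ⟨j, hM⟩ := exists_Mt hf h
      have hjn : j < n := hM.1.trans i.2
      have e1 : b2 (wv f j) = 0 := by
        have := hM.up hf
        unfold wv b2
        simp [this]
      have hj' : b2 (wv f j) * w ⟨j, hjn⟩ + ∑ l : Fin n, b2 (wx f j l) * (w l + w ⟨j, hjn⟩) = 0 :=
        hw ⟨j, hjn⟩
      have hsum : ∑ l : Fin n, b2 (wx f j l) * (w l + w ⟨j, hjn⟩) = w i + w ⟨j, hjn⟩ := by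
        rw [sum_eq_single i]
        · have : wx f j i = true := by
            unfold wx
            simp [hM]
          rw [this]
          unfold b2
          simp
        · intro l _ hl
          have : wx f j l = false := by
            unfold wx
            rw [decide_eq_false_iff_not]
            rintro (h5 | h5)
            · exact hl (Fin.ext (h5.right hM))
            · have := h5.2.1
              have := hM.up hf
              omega
          rw [this]
          unfold b2
          simp
        · intro h5
          exact absurd (mem_univ _) h5
      rw [e1, hsum, zero_mul, zero_add] at hj'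
      have e2 : b2 (wv f i) = 1 := by
        have h6 : ¬ f ((i : ℕ) + 1) = f i + 1 := by omega
        unfold wv b2
        simp [h6]
      have hsum2 : ∑ l : Fin n, b2 (wx f i l) * (w l + w i) = w ⟨j, hjn⟩ + w i := by
        rw [sum_eq_single (⟨j, hjn⟩ : Fin n)]
        · have : wx f i j = true := by
            unfold wx
            simp [hM]
          show b2 (wx f i j) * _ = _
          rw [this]
          unfold b2
          simp
        · intro l _ hl
          have : wx f i l = false := by
            unfold wx
            rw [decide_eq_false_iff_not]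
            rintro (h5 | h5)
            · have := h5.up hf
              omega
            · exact hl (Fin.ext (h5.left hM))
          rw [this]
          unfold b2
          simp
        · intro h5
          exact absurd (mem_univ _) h5
      have hi2 : b2 (wv f i) * w i + ∑ l : Fin n, b2 (wx f i l) * (w l + w i) = 0 := hi'
      rw [e2, hsum2, one_mul] at hi2
      have h7 : w i + (w ⟨j, hjn⟩ + w i) = w ⟨j, hjn⟩ + (w i + w i) := by ring
      rw [h7, hz, add_zero] at hi2
      rw [hi2, add_zero] at hj'
      exact hj'
  · intro hw i
    show b2 (wv f i) * w i + ∑ l : Fin n, b2 (wx f i l) * (w l + w i) = 0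
    have h1 : b2 (wv f i) * w i = 0 := by
      by_cases h : f ((i : ℕ) + 1) = f i + 1
      · have : b2 (wv f i) = 0 := by
          unfold wv b2
          simp [h]
        rw [this, zero_mul]
      · have : w i = 0 := hw i (by
          unfold Free
          rw [mem_filter]
          tauto)
        rw [this, mul_zero]
    rw [h1, zero_add]
    apply sum_eq_zero
    intro l _
    by_cases h : wx f i l = true
    · unfold wx at h
      rw [decide_eq_true_iff] at h
      have h2 : w i = 0 ∧ w l = 0 := by
        rcases h with h | h
        · refine ⟨hw i ?_, hw l ?_⟩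
          · unfold Free
            rw [mem_filter]
            rintro ⟨-, -, h5⟩
            exact h5 l l.2 h
          · unfold Free
            rw [mem_filter]
            rintro ⟨-, h5, -⟩
            have := h.2.1
            omega
        · refine ⟨hw i ?_, hw l ?_⟩
          · unfold Free
            rw [mem_filter]
            rintro ⟨-, h5, -⟩
            have := h.2.1
            omega
          · unfold Free
            rw [mem_filter]
            rintro ⟨-, -, h5⟩
            exact h5 i i.2 h
      rw [h2.1, h2.2, add_zero, mul_zero]
    · rw [Bool.not_eq_true] at h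
      rw [h]
      unfold b2
      simp

/-- **The corank of the reduced Laplacian on the first `n` vertices is `f n`.** -/
theorem card_KerL {f : ℕ → ℕ} (hf : Walk f) (n : ℕ) :
    Nat.card (KerL (fun j k : Fin n => b2 (wx f j k)) (fun j : Fin n => b2 (wv f j))) =
      2 ^ (f n) := by
  classical
  rw [KerL_eq hf n]
  have e : {w : Fin n → ZMod 2 | ∀ i : Fin n, (i : ℕ) ∉ Free f n → w i = 0} =
      ((Fintype.piFinset (fun i : Fin n => if (i : ℕ) ∈ Free f n then univ else {0}) :
        Finset (Fin n → ZMod 2)) : Set (Fin n → ZMod 2)) := by
    ext w
    rw [mem_coe, Fintype.mem_piFinset]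
    refine forall_congr' fun i => ?_
    by_cases h : (i : ℕ) ∈ Free f n
    · simp [h]
    · simp [h]
  rw [e, Nat.card_coe_set_eq, Set.ncard_coe_finset, Fintype.card_piFinset]
  have h1 : ∀ i : Fin n, (if (i : ℕ) ∈ Free f n then (univ : Finset (ZMod 2)) else {0}).card =
      if (i : ℕ) ∈ Free f n then 2 else 1 := by
    intro i
    split_ifs
    · rw [card_univ, ZMod.card]
    · rw [card_singleton]
  rw [prod_congr rfl fun i _ => h1 i, prod_ite, prod_const, prod_const, one_pow, mul_one]
  congr 1
  rw [← card_Free hf n]
  apply card_bij (fun (i : Fin n) _ => (i : ℕ))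
  · intro i hi
    exact (mem_filter.1 hi).2
  · intro i _ j _ h
    exact Fin.ext h
  · intro i hi
    have : i < n := by
      unfold Free at hi
      exact mem_range.1 (mem_filter.1 hi).1
    exact ⟨⟨i, this⟩, mem_filter.2 ⟨mem_univ _, hi⟩, rfl⟩

end Pool.Agent.K1H6.PR
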