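import Mathlib.NumberTheory.LSeries.PrimesInAP
import Pool.Agent.K1H97.CU.Dir
import Pool.Agent.Y703.CQ.Stm
import Pool.Agent.K1H6.PR.Walk

/-!
# Infinite sequences of primes with prescribed quadratic symbols
-/

set_option autoImplicit false

namespace Pool.Agent.K1H6.PR

open Finset
open Pool.Agent.Y703.CQ (nr)

/-! ## Sequences by recursion on all the previous terms -/

section Rec

variable {α : Type} [Inhabited α]

/-- the sequence given by a function of the previous terms -/
noncomputable def recSeq (next : ℕ → (ℕ → α) → α) : ℕ → α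
  | n => next n (fun i => if _hi : i < n then recSeq next i else default)
termination_by n => n
decreasing_by exact _hi

lemma recSeq_eq (next : ℕ → (ℕ → α) → α) (n : ℕ) :
    recSeq next n = next n (fun i => if i < n then recSeq next i else default) := by
  rw [recSeq]
  congr 1

theorem exists_seq_dep (P : ℕ → (ℕ → α) → α → Prop)
    (hP : ∀ n g g' a, (∀ i < n, g i = g' i) → P n g a → P n g' a)
    (h : ∀ n g, (∀ i < n, P i g (g i)) → ∃ a, P n g a) : ∃ f : ℕ → α, ∀ n, P n f (f n) := by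
  classical
  obtain ⟨next, hnext⟩ : ∃ next : ℕ → (ℕ → α) → α, ∀ n g, (∃ a, P n g a) → P n g (next n g) := by
    refine ⟨fun n g => if h : ∃ a, P n g a then h.choose else default, fun n g h => ?_⟩
    simp only
    rw [dif_pos h]
    exact h.choose_spec
  refine ⟨recSeq next, fun n => ?_⟩
  induction n using Nat.strong_induction_on with
  | _ n ih =>
    obtain ⟨g, hg⟩ : ∃ g : ℕ → α, g = fun i => if i < n then recSeq next i else default := ⟨_, rfl⟩
    have hg1 : ∀ i < n, g i = recSeq next i := by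
      intro i hi
      rw [hg]
      simp only
      rw [if_pos hi]
    have h1 : ∀ i < n, P i g (g i) := by
      intro i hi
      rw [hg1 i hi]
      exact hP i (recSeq next) g _ (fun j hj => (hg1 j (hj.trans hi)).symm) (ih i hi)
    have h2 := hnext n g (h n g h1)
    have h3 : recSeq next n = next n g := by
      rw [recSeq_eq, hg]
    rw [h3]
    exact hP n g (recSeq next) _ hg1 h2

end Rec

/-! ## Dirichlet's theorem with symbols -/

/-- a large prime in a residue class with given symbols at a finite set of primes -/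
lemma exists_prime_symbols {M q₀ : ℕ} (hM : 0 < M) (hc : q₀.Coprime M) {x : ℕ → ℤ}
    (S : Finset ℕ) (hx : ∀ r ∈ S, x r = 1 ∨ x r = -1)
    (hS : ∀ r ∈ S, r.Prime ∧ r ≠ 2 ∧ r.Coprime M) (B : ℕ) :
    ∃ q : ℕ, B < q ∧ q.Prime ∧ q ≡ q₀ [MOD M] ∧ ∀ r ∈ S, jacobiSym (q : ℤ) r = x r := by
  classical
  have h1 : ∀ r : ℕ, ∃ ρ : ℕ, r ∈ S → ρ.Coprime r ∧
      ∀ n : ℕ, n ≡ ρ [MOD r] → jacobiSym (n : ℤ) r = x r := by
    intro r
    by_cases hr : r ∈ S
    · obtain ⟨ρ, h⟩ := Pool.Agent.K1H97.CU.exists_res (hS r hr).1 (hS r hr).2.1 (hx r hr)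
      exact ⟨ρ, fun _ => h⟩
    · exact ⟨0, fun h => absurd h hr⟩
  choose ρ hρ using h1
  obtain ⟨b, hb⟩ := Nat.chineseRemainderOfFinset ρ (fun r => r) S
    (fun r hr => (hS r hr).1.ne_zero) (fun r hr r' hr' hne =>
      (Nat.coprime_primes (hS r hr).1 (hS r' hr').1).2 hne)
  obtain ⟨R, hR⟩ : ∃ R : ℕ, R = ∏ r ∈ S, r := ⟨_, rfl⟩
  have hR0 : 0 < R := by rw [hR]; exact prod_pos fun r hr => (hS r hr).1.pos
  have hMR : M.Coprime R := by
    rw [hR]
    exact Nat.Coprime.prod_right fun r hr => (hS r hr).2.2.symm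
  obtain ⟨c, hc1, hc2⟩ := Nat.chineseRemainder hMR q₀ b
  have hcop : c.Coprime (M * R) := by
    apply Nat.Coprime.mul_right
    · have h2 : c.gcd M = q₀.gcd M := by
        have := hc1.gcd_eq
        exact this
      unfold Nat.Coprime
      rw [h2]
      exact hc
    · rw [hR]
      apply Nat.Coprime.prod_right
      intro r hr
      have h3 : c ≡ ρ r [MOD r] := (hc2.of_dvd (by rw [hR]; exact dvd_prod_of_mem _ hr)).trans
        (hb r hr)
      unfold Nat.Coprime
      rw [h3.gcd_eq]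
      exact (hρ r hr).1
  have : NeZero (M * R) := ⟨by positivity⟩
  obtain ⟨q, hq1, hq2, hq3⟩ := Nat.forall_exists_prime_gt_and_eq_mod
    ((ZMod.isUnit_iff_coprime c (M * R)).2 hcop) B
  have hq4 : q ≡ c [MOD (M * R)] := (ZMod.natCast_eq_natCast_iff _ _ _).1 hq3
  refine ⟨q, hq1, hq2, (hq4.of_dvd (Dvd.intro _ rfl)).trans hc1, fun r hr => ?_⟩
  apply (hρ r hr).2
  refine (hq4.of_dvd ?_).trans ((hc2.of_dvd ?_).trans (hb r hr))
  · rw [hR]
    exact (dvd_prod_of_mem _ hr).mul_left _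
  · rw [hR]
    exact dvd_prod_of_mem _ hr

/-- the symbol in terms of the Jacobi symbol -/
lemma nr_of_jac {p n : ℕ} (hp : p.Prime) (b : Bool)
    (h : jacobiSym (n : ℤ) p = if b then -1 else 1) : nr p n = b2 b := by
  have : Fact p.Prime := ⟨hp⟩
  rw [← jacobiSym.legendreSym.to_jacobiSym] at h
  unfold nr b2
  cases b
  · simp only [Bool.false_eq_true, if_false] at h ⊢
    have hn : ((n : ℤ) : ZMod p) ≠ 0 := by
      intro h0
      rw [(legendreSym.eq_zero_iff p n).2 h0] at h
      norm_num at h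
    have h1 := (legendreSym.eq_one_iff p hn).1 h
    rw [Int.cast_natCast] at h1
    rw [if_pos h1]
  · simp only [if_true] at h ⊢
    have h1 := (legendreSym.eq_neg_one_iff p).1 h
    rw [Int.cast_natCast] at h1
    rw [if_neg h1]

/-- **Every graph is a graph of nonresidues.** -/
theorem exists_primes {M q : ℕ} (hM : 0 < M) (h4 : 4 ∣ M) (hq : q.Prime) (hq4 : q % 4 = 1)
    (hqM : q.Coprime M) (x : ℕ → ℕ → Bool) (hx : ∀ j k, x j k = x k j) (v : ℕ → Bool) :
    ∃ r : ℕ → ℕ, StrictMono r ∧ (∀ j, (r j).Prime ∧ r j ≡ 1 [MOD M] ∧ q < r j) ∧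
      (∀ j, nr (r j) q = b2 (v j)) ∧ ∀ j k, j ≠ k → nr (r j) (r k) = b2 (x j k) := by
  classical
  obtain ⟨P, hPdef⟩ : ∃ P : ℕ → (ℕ → ℕ) → ℕ → Prop, P = fun n g p =>
    p.Prime ∧ p ≡ 1 [MOD M] ∧ q < p ∧ (∀ i < n, g i < p) ∧
      jacobiSym (p : ℤ) q = (if v n then -1 else 1) ∧
      ∀ i < n, jacobiSym (p : ℤ) (g i) = (if x n i then -1 else 1) := ⟨_, rfl⟩
  have hm4 : ∀ {p : ℕ}, p ≡ 1 [MOD M] → p % 4 = 1 := by
    intro p h
    have h1 : p % 4 = 1 % 4 := h.of_dvd h4
    omega
  have hcop : ∀ {p : ℕ}, p ≡ 1 [MOD M] → p.Coprime M := by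
    intro p h
    unfold Nat.Coprime
    rw [h.gcd_eq]
    exact Nat.gcd_one_left M
  obtain ⟨r, hr⟩ := exists_seq_dep P (by
    intro n g g' a hg h
    rw [hPdef] at h ⊢
    obtain ⟨a1, a2, a3, a4, a5, a6⟩ := h
    exact ⟨a1, a2, a3, fun i hi => hg i hi ▸ a4 i hi, a5, fun i hi => hg i hi ▸ a6 i hi⟩) (by
    intro n g h
    rw [hPdef] at h
    simp only at h
    have ginj : ∀ i < n, ∀ j < n, g i = g j → i = j := by
      intro i hi j hj hij
      rcases lt_trichotomy i j with h5 | h5 | h5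
      · have := (h j hj).2.2.2.1 i h5
        omega
      · exact h5
      · have := (h i hi).2.2.2.1 j h5
        omega
    -- the prescribed symbols
    obtain ⟨χ, hχ⟩ : ∃ χ : ℕ → ℤ, χ = fun p => if p = q then (if v n then -1 else 1) else
      if ∃ i < n, g i = p ∧ x n i = true then -1 else 1 := ⟨_, rfl⟩
    obtain ⟨p, p1, p2, p3, p4⟩ := exists_prime_symbols (q₀ := 1) hM (Nat.coprime_one_left M)
      (x := χ) (insert q ((range n).image g)) (by
        intro p _
        rw [hχ]
        simp only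
        split_ifs <;> simp) (by
        intro p hp
        rw [mem_insert, mem_image] at hp
        rcases hp with rfl | ⟨i, hi, rfl⟩
        · refine ⟨hq, ?_, hqM⟩
          rintro rfl
          omega
        · obtain ⟨a1, a2, a3, -⟩ := h i (mem_range.1 hi)
          have := hq.two_le
          exact ⟨a1, by omega, hcop a2⟩) (q + ((range n).image g).sup id)
    refine ⟨p, ?_⟩
    rw [hPdef]
    have hgp : ∀ i < n, g i < p := fun i hi => by
      have : g i ≤ ((range n).image g).sup id :=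
        le_sup (f := id) (mem_image_of_mem g (mem_range.2 hi))
      omega
    refine ⟨p2, p3, by omega, hgp, ?_, fun i hi => ?_⟩
    · rw [p4 q (mem_insert_self _ _), hχ]
      simp
    · rw [p4 (g i) (mem_insert_of_mem (mem_image_of_mem g (mem_range.2 hi))), hχ]
      have hne : g i ≠ q := by
        have := (h i hi).2.2.1
        omega
      simp only
      rw [if_neg hne]
      by_cases hb : x n i = true
      · rw [if_pos ⟨i, hi, rfl, hb⟩, if_pos hb]
      · rw [if_neg hb, if_neg]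
        rintro ⟨j, hj, hij, hxj⟩
        exact hb (ginj j hj i hi hij ▸ hxj))
  rw [hPdef] at hr
  simp only at hr
  have hmono : StrictMono r := strictMono_nat_of_lt_succ fun n =>
    (hr (n + 1)).2.2.2.1 n (by omega)
  have hrec : ∀ {a b : ℕ}, a % 4 = 1 → b % 4 = 1 → jacobiSym (a : ℤ) b = jacobiSym (b : ℤ) a := by
    intro a b h1 h2
    exact jacobiSym.quadratic_reciprocity_one_mod_four h1 (Nat.odd_iff.2 (by omega))
  refine ⟨r, hmono, fun j => ⟨(hr j).1, (hr j).2.1, (hr j).2.2.1⟩, fun j => ?_, fun j k hjk => ?_⟩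
  · apply nr_of_jac (hr j).1
    rw [hrec hq4 (hm4 (hr j).2.1)]
    exact (hr j).2.2.2.2.1
  · apply nr_of_jac (hr j).1
    rcases Nat.lt_or_gt_of_ne hjk with h | h
    · rw [(hr k).2.2.2.2.2 j h, hx]
    · rw [hrec (hm4 (hr k).2.1) (hm4 (hr j).2.1), (hr j).2.2.2.2.2 k h]

end Pool.Agent.K1H6.PR
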