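import Mathlib
import Pool.Agent.K1H6.PR.Primes

/-!
# Units of four vertices of the same colour

`f` is a function with `11 f n ≤ n`. The colour of the vertex `m` is the number `f m xor f (m + 1)`.
There are disjoint quadruples `u i` of vertices of the same colour such that the quadruple `u i` is
complete before the bit `log₂ (i + 1)` of `f` is used for the first time.
-/

set_option autoImplicit false

namespace Pool.Agent.K1H6.PR

open Finset

/-- the bit of the unit `i` -/
def gb (i : ℕ) : ℕ := Nat.log2 (i + 1)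

lemma gb_le (i : ℕ) : 2 ^ gb i ≤ i + 1 := Nat.log2_self_le (by omega)

lemma lt_gb (i : ℕ) : i + 1 < 2 ^ (gb i + 1) := Nat.lt_log2_self

lemma gb_eq {i J : ℕ} (h1 : 2 ^ J ≤ i + 1) (h2 : i + 1 < 2 ^ (J + 1)) : gb i = J := by
  unfold gb
  exact (Nat.log2_eq_iff (by omega)).2 ⟨h1, h2⟩

/-- the units which belong to the bits of `h` -/
lemma count_bits (h J : ℕ) :
    ((range (2 ^ J - 1)).filter fun i => h.testBit (gb i) = true).card = h % 2 ^ J := by
  induction J with
  | zero => simp [Nat.mod_one]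
  | succ J ih =>
    have h0 : 1 ≤ 2 ^ J := Nat.one_le_two_pow
    have h1 : 2 ^ (J + 1) = 2 * 2 ^ J := by ring
    have hr : range (2 ^ (J + 1) - 1) = range (2 ^ J - 1) ∪ Ico (2 ^ J - 1) (2 ^ (J + 1) - 1) := by
      rw [range_eq_Ico, range_eq_Ico, Ico_union_Ico_eq_Ico (by omega) (by omega)]
    have hd : Disjoint ((range (2 ^ J - 1)).filter fun i => h.testBit (gb i) = true)
        ((Ico (2 ^ J - 1) (2 ^ (J + 1) - 1)).filter fun i => h.testBit (gb i) = true) := by
      rw [disjoint_left]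
      intro i hi hi'
      rw [mem_filter, mem_range] at hi
      rw [mem_filter, mem_Ico] at hi'
      omega
    have hms : h % 2 ^ (J + 1) = h % 2 ^ J + 2 ^ J * (h.testBit J).toNat := by
      rw [Nat.mod_pow_succ, Nat.toNat_testBit]
    rw [hr, filter_union, card_union_of_disjoint hd, ih, hms]
    congr 1
    have h2 : ∀ i ∈ Ico (2 ^ J - 1) (2 ^ (J + 1) - 1), gb i = J := by
      intro i hi
      rw [mem_Ico] at hi
      exact gb_eq (by omega) (by omega)
    cases hb : h.testBit J with
    | false =>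
      rw [filter_false_of_mem, card_empty]
      · simp
      · intro i hi
        rw [h2 i hi, hb]
        decide
    | true =>
      rw [filter_true_of_mem, Nat.card_Ico]
      · simp
        omega
      · intro i hi
        rw [h2 i hi, hb]

/-- the units which are on -/
def On (h : ℕ) : Finset ℕ := (range (2 ^ h - 1)).filter fun i => h.testBit (gb i) = true

lemma mem_On {h i : ℕ} : i ∈ On h ↔ h.testBit (gb i) = true := by
  unfold On
  rw [mem_filter, mem_range]
  refine ⟨fun h' => h'.2, fun h' => ⟨?_, h'⟩⟩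
  by_contra hcon
  have h1 : h < 2 ^ h := Nat.lt_two_pow_self
  have h2 : 2 ^ gb i ≤ h := Nat.ge_two_pow_of_testBit h'
  have h3 := lt_gb i
  have h4 : 2 ^ (gb i + 1) = 2 * 2 ^ gb i := by ring
  have h5 : 2 ^ gb i < 2 ^ h := lt_of_le_of_lt h2 h1
  have h6 : gb i < h := (Nat.pow_lt_pow_iff_right (by norm_num)).1 h5
  have h7 : 2 ^ (gb i + 1) ≤ 2 ^ h := Nat.pow_le_pow_right (by norm_num) h6
  omega

lemma card_On (h : ℕ) : (On h).card = h := by
  unfold On
  rw [count_bits, Nat.mod_eq_of_lt Nat.lt_two_pow_self]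

lemma b2_xor (a b : Bool) : b2 (a ^^ b) = b2 a + b2 b := by
  revert a b
  decide

/-- the colour of a vertex -/
def col (f : ℕ → ℕ) (m : ℕ) : ℕ := f m ^^^ f (m + 1)

lemma sum_col {f : ℕ → ℕ} (h0 : f 0 = 0) (n J : ℕ) :
    ∑ m ∈ range n, b2 ((col f m).testBit J) = b2 ((f n).testBit J) := by
  induction n with
  | zero =>
    rw [range_zero, sum_empty, h0, Nat.zero_testBit]
    rfl
  | succ n ih =>
    rw [sum_range_succ, ih]
    unfold col
    rw [Nat.testBit_xor, b2_xor, ← add_assoc, CharTwo.add_self_eq_zero, zero_add]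

/-- the bound for the unit `i` -/
def Nb (i : ℕ) : ℕ := 4 * i + 3 * 2 ^ gb i + 1

lemma Nb_lt (i : ℕ) : Nb i + 1 < 11 * 2 ^ gb i := by
  have h1 := lt_gb i
  have h2 : 2 ^ (gb i + 1) = 2 * 2 ^ gb i := by ring
  unfold Nb
  omega

lemma col_bit {f : ℕ → ℕ} (hf : ∀ n, 11 * f n ≤ n) {m i : ℕ}
    (h : (col f m).testBit (gb i) = true) : Nb i ≤ m := by
  have h1 := Nb_lt i
  unfold col at h
  rw [Nat.testBit_xor] at h
  have h2 : (f m).testBit (gb i) = true ∨ (f (m + 1)).testBit (gb i) = true := by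
    revert h
    cases (f m).testBit (gb i) <;> cases (f (m + 1)).testBit (gb i) <;> simp
  rcases h2 with h2 | h2
  · have h3 : 2 ^ gb i ≤ f m := Nat.ge_two_pow_of_testBit h2
    have := hf m
    omega
  · have h3 : 2 ^ gb i ≤ f (m + 1) := Nat.ge_two_pow_of_testBit h2
    have := hf (m + 1)
    omega

lemma col_lt {f : ℕ → ℕ} (hf : ∀ n, 11 * f n ≤ n) {m i : ℕ} (h : m < Nb i) :
    col f m < 2 ^ gb i := by
  have h1 := Nb_lt i
  unfold col
  apply Nat.xor_lt_two_pow
  · have := hf m
    omega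
  · have := hf (m + 1)
    omega

/-- the units -/
structure Units (f : ℕ → ℕ) (u : ℕ → Fin 4 → ℕ) : Prop where
  mono : ∀ i, StrictMono (u i)
  inj : ∀ i i' a b, u i a = u i' b → i = i' ∧ a = b
  cl : ∀ i a, col f (u i a) = col f (u i 0)
  bit : ∀ i a m, (col f m).testBit (gb i) = true → u i a < m

/-- **there are units** -/
theorem exists_units {f : ℕ → ℕ} (hf : ∀ n, 11 * f n ≤ n) : ∃ u, Units f u := by
  classical
  obtain ⟨P, hPdef⟩ : ∃ P : ℕ → (ℕ → (Fin 4 → ℕ)) → (Fin 4 → ℕ) → Prop, P = fun i g y =>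
    StrictMono y ∧ (∀ a, y a < Nb i) ∧ (∀ a, col f (y a) = col f (y 0)) ∧
      ∀ i' < i, ∀ a b, y a ≠ g i' b := ⟨_, rfl⟩
  obtain ⟨u, hu⟩ := exists_seq_dep P (by
    intro i g g' y hg h
    rw [hPdef] at h ⊢
    exact ⟨h.1, h.2.1, h.2.2.1, fun i' hi' a b => by
      rw [← hg i' hi']
      exact h.2.2.2 i' hi' a b⟩) (by
    intro i g _
    rw [hPdef]
    obtain ⟨A, hA⟩ : ∃ A : Finset ℕ, A = range (Nb i) \
      (range i).biUnion (fun i' => univ.image (g i')) := ⟨_, rfl⟩
    have h1 : ((range i).biUnion (fun i' => (univ : Finset (Fin 4)).image (g i'))).card ≤ 4 * i := by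
      refine card_biUnion_le.trans ?_
      refine (sum_le_sum fun i' _ => (card_image_le : _ ≤ (univ : Finset (Fin 4)).card)).trans ?_
      rw [sum_const, card_range, card_univ, Fintype.card_fin, smul_eq_mul, mul_comm]
    have h2 : 2 ^ gb i * 3 < A.card := by
      have h3 := le_card_sdiff ((range i).biUnion (fun i' => univ.image (g i'))) (range (Nb i))
      rw [← hA, card_range] at h3
      unfold Nb at h3
      omega
    obtain ⟨z, -, hz⟩ := exists_lt_card_fiber_of_mul_lt_card_of_maps_to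
      (s := A) (t := range (2 ^ gb i)) (f := col f) (fun m hm => by
        rw [hA, mem_sdiff, mem_range] at hm
        exact mem_range.2 (col_lt hf hm.1)) (by
        rw [card_range]
        exact h2)
    obtain ⟨t, ht, ht4⟩ := exists_subset_card_eq (show 4 ≤ _ from hz)
    have hmem : ∀ a, t.orderEmbOfFin ht4 a ∈ A ∧ col f (t.orderEmbOfFin ht4 a) = z := fun a =>
      mem_filter.1 (ht (t.orderEmbOfFin_mem ht4 a))
    refine ⟨t.orderEmbOfFin ht4, (t.orderEmbOfFin ht4).strictMono, fun a => ?_, fun a => ?_,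
      fun i' hi' a b h => ?_⟩
    · have := (hmem a).1
      rw [hA, mem_sdiff, mem_range] at this
      exact this.1
    · rw [(hmem a).2, (hmem 0).2]
    · have := (hmem a).1
      rw [hA, mem_sdiff] at this
      apply this.2
      rw [h]
      exact mem_biUnion.2 ⟨i', mem_range.2 hi', mem_image_of_mem _ (mem_univ b)⟩)
  rw [hPdef] at hu
  have hne : ∀ i i', i' < i → ∀ a b, u i a ≠ u i' b := fun i i' h => (hu i).2.2.2 i' h
  refine ⟨u, fun i => (hu i).1, fun i i' a b h => ?_, fun i => (hu i).2.2.1, fun i a m h => ?_⟩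
  · rcases lt_trichotomy i i' with h' | h' | h'
    · exact absurd h.symm (hne i' i h' b a)
    · subst h'
      exact ⟨rfl, (hu i).1.injective h⟩
    · exact absurd h (hne i i' h' a b)
  · exact lt_of_lt_of_le ((hu i).2.1 a) (col_bit hf h)

end Pool.Agent.K1H6.PR
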