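import Pool.Agent.K1H6.PR.Jump

/-!
# The number of the elements of the kernel
-/

set_option autoImplicit false

namespace Pool.Agent.K1H6.PR

open Finset

variable {f : ℕ → ℕ} {u : ℕ → Fin 4 → ℕ}

/-- extension by zero -/
def ext0 {n : ℕ} (w : Fin n → ZMod 2) (k : ℕ) : ZMod 2 := if h : k < n then w ⟨k, h⟩ else 0

lemma ext0_ge {n : ℕ} (w : Fin n → ZMod 2) : ∀ k, n ≤ k → ext0 w k = 0 := fun k hk => by
  unfold ext0
  rw [dif_neg (not_lt.2 hk)]

lemma ext0_fin {n : ℕ} (w : Fin n → ZMod 2) (k : Fin n) : ext0 w k = w k := by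
  unfold ext0
  rw [dif_pos k.2]

lemma eqn_fin {n : ℕ} (w : Fin n → ZMod 2) (j : Fin n) : Eqn f u n (ext0 w) j ↔
    b2 (gv f u j) * w j + ∑ k : Fin n, b2 (gx f u j k) * (w k + w j) = 0 := by
  unfold Eqn
  have h1 : ∑ k ∈ range n, b2 (gx f u j k) = ∑ k : Fin n, b2 (gx f u j k) :=
    (Fin.sum_univ_eq_sum_range (fun k => b2 (gx f u j k)) n).symm
  have h2 : ∑ k ∈ range n, b2 (gx f u j k) * ext0 w k = ∑ k : Fin n, b2 (gx f u j k) * w k := by
    rw [← Fin.sum_univ_eq_sum_range (fun k => b2 (gx f u j k) * ext0 w k) n]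
    exact sum_congr rfl fun k _ => by rw [ext0_fin]
  rw [h1, h2, ext0_fin]
  simp only [mul_add, sum_add_distrib, add_mul]
  rw [sum_mul]
  constructor
  · intro h
    linear_combination h
  · intro h
    linear_combination h

open Classical in
/-- the vector with the given values on the units which are on -/
noncomputable def vec (u : ℕ → Fin 4 → ℕ) (h : ℕ) (s : {i // i ∈ On h} → ZMod 2) (k : ℕ) : ZMod 2 :=
  ∑ i : {i // i ∈ On h}, if ∃ a, k = u i a then s i else 0

lemma vec_u (hu : Units f u) {h : ℕ} (s : {i // i ∈ On h} → ZMod 2) (i : {i // i ∈ On h})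
    (a : Fin 4) : vec u h s (u i a) = s i := by
  classical
  unfold vec
  rw [sum_eq_single i]
  · rw [if_pos ⟨a, rfl⟩]
  · intro i' _ hne
    rw [if_neg]
    rintro ⟨a', h'⟩
    exact hne (Subtype.ext (hu.inj _ _ _ _ h').1.symm)
  · intro h'
    exact absurd (mem_univ _) h'

lemma vec_zero {h : ℕ} (s : {i // i ∈ On h} → ZMod 2) {k : ℕ}
    (hk : ∀ i ∈ On h, ∀ a, k ≠ u i a) : vec u h s k = 0 := by
  classical
  unfold vec
  apply sum_eq_zero
  intro i _
  rw [if_neg]
  rintro ⟨a, h'⟩
  exact hk i i.2 a h'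

lemma on_lt (hu : Units f u) (h0 : f 0 = 0) {i n : ℕ} (hi : i ∈ On (f n)) (a : Fin 4) :
    u i a < n := by
  have h1 : u i a ≤ u i 3 := (hu.mono i).monotone (by
    rw [Fin.le_def]
    have := a.2
    change (a : ℕ) ≤ 3
    omega)
  rw [mem_On] at hi
  by_contra hcon
  rw [off_of hu h0 (by omega)] at hi
  exact absurd hi (by decide)

/-- **The corank of the reduced Laplacian on the first `n` vertices is `f n`.** -/
theorem card_KerL2 (hu : Units f u) (h0 : f 0 = 0) (n : ℕ) :
    Nat.card (KerL (fun j k : Fin n => b2 (gx f u j k)) (fun j : Fin n => b2 (gv f u j))) =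
      2 ^ (f n) := by
  classical
  obtain ⟨Φ, hΦ⟩ : ∃ Φ : ({i // i ∈ On (f n)} → ZMod 2) → (Fin n → ZMod 2),
    Φ = fun s (k : Fin n) => vec u (f n) s k := ⟨_, rfl⟩
  have hext : ∀ s k, ext0 (Φ s) k = vec u (f n) s k := by
    intro s k
    unfold ext0
    by_cases h : k < n
    · rw [dif_pos h, hΦ]
    · rw [dif_neg h, vec_zero]
      intro i hi a h'
      apply h
      rw [h']
      exact on_lt hu h0 hi a
  have hinj : Function.Injective Φ := by
    intro s s' h
    funext i
    have h1 : ext0 (Φ s) (u i 0) = ext0 (Φ s') (u i 0) := by rw [h]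
    rw [hext, hext, vec_u hu, vec_u hu] at h1
    exact h1
  have hker : ∀ w : Fin n → ZMod 2,
      w ∈ KerL (fun j k : Fin n => b2 (gx f u j k)) (fun j : Fin n => b2 (gv f u j)) ↔
        ∀ j < n, Eqn f u n (ext0 w) j := by
    intro w
    constructor
    · intro h j hj
      exact (eqn_fin w ⟨j, hj⟩).2 (h ⟨j, hj⟩)
    · intro h j
      exact (eqn_fin w j).1 (h j j.2)
  have hrange : KerL (fun j k : Fin n => b2 (gx f u j k)) (fun j : Fin n => b2 (gv f u j)) =
      Set.range Φ := by
    ext w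
    rw [hker, ker_iff hu h0 (ext0_ge w)]
    constructor
    · rintro ⟨h1, h2⟩
      refine ⟨fun i => ext0 w (u i 0), ?_⟩
      funext k
      rw [← ext0_fin w k, ← ext0_fin (Φ _) k, hext]
      by_cases hk : ∃ i ∈ On (f n), ∃ a, (k : ℕ) = u i a
      · obtain ⟨i, hi, a, hk⟩ := hk
        rw [hk]
        have h3 := vec_u hu (fun i : {i // i ∈ On (f n)} => ext0 w (u i 0)) ⟨i, hi⟩ a
        rw [h3, (h2 i).1 a]
      · push Not at hk
        rw [vec_zero _ hk]
        by_cases hg : ∀ i a, (k : ℕ) ≠ u i a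
        · rw [h1 _ hg]
        · push Not at hg
          obtain ⟨i, a, hia⟩ := hg
          have h3 : i ∉ On (f n) := fun h => hk i h a hia
          rw [mem_On, Bool.not_eq_true] at h3
          rw [hia, (h2 i).1 a, (h2 i).2 h3]
    · rintro ⟨s, rfl⟩
      refine ⟨fun j hg => ?_, fun i => ⟨fun a => ?_, fun h => ?_⟩⟩
      · rw [hext, vec_zero]
        intro i _ a
        exact hg i a
      · rw [hext, hext]
        by_cases hi : i ∈ On (f n)
        · have h3 := vec_u hu s ⟨i, hi⟩ a
          have h4 := vec_u hu s ⟨i, hi⟩ 0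
          rw [h3, h4]
        · rw [vec_zero, vec_zero]
          · intro i' hi' a' h'
            rw [(hu.inj _ _ _ _ h').1] at hi
            exact hi hi'
          · intro i' hi' a' h'
            rw [(hu.inj _ _ _ _ h').1] at hi
            exact hi hi'
      · rw [hext, vec_zero]
        intro i' hi' a' h'
        rw [mem_On, ← (hu.inj _ _ _ _ h').1, h] at hi'
        exact absurd hi' (by decide)
  rw [hrange, Nat.card_range_of_injective hinj]
  rw [Nat.card_eq_fintype_card, Fintype.card_fun, ZMod.card, Fintype.card_coe, card_On]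

/-- **A graph with arbitrary prescribed coranks.** -/
theorem exists_jump (hf : ∀ n, 11 * f n ≤ n) : ∃ (x : ℕ → ℕ → Bool) (v : ℕ → Bool),
    (∀ j k, x j k = x k j) ∧ ∀ n, Nat.card (KerL (fun j k : Fin n => b2 (x j k))
      (fun j : Fin n => b2 (v j))) = 2 ^ (f n) := by
  obtain ⟨u, hu⟩ := exists_units hf
  have h0 : f 0 = 0 := by
    have := hf 0
    omega
  exact ⟨gx f u, gv f u, gx_symm f u, card_KerL2 hu h0⟩

end Pool.Agent.K1H6.PR
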