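import Pool.Agent.K1H6.PR.Bits

/-!
# A graph whose reduced Laplacians have arbitrary prescribed coranks

`f` is a function with `11 f n ≤ n`.  There is a graph on the natural numbers and one more vertex such
that the reduced Laplacian modulo two of the graph on the first `n` vertices and the additional one
has corank `f n`, for every `n`.
-/

set_option autoImplicit false

namespace Pool.Agent.K1H6.PR

open Finset

/-- the graph of a unit: the path `0 - 1 - 3 - 2` -/
def ua (a b : Fin 4) : Bool :=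
  (![![false, true, false, false], ![true, false, false, true], ![false, false, false, true],
    ![false, true, true, false]] : Fin 4 → Fin 4 → Bool) a b

/-- the diagonal entries when the vertices are added -/
def ub (a : Fin 4) : Bool := (![true, false, true, true] : Fin 4 → Bool) a

lemma ua_symm : ∀ a b, ua a b = ua b a := by decide

lemma ua_self : ∀ a, ua a a = false := by decide

/-- the entries of the diagonal when the vertices `b < p` are there -/
def dg (p : Fin 5) (a : Fin 4) : ZMod 2 :=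
  b2 (ub a) + ∑ b : Fin 4, if a < b ∧ (b : ℕ) < p then b2 (ua a b) else 0

/-- a complete unit -/
lemma unit_full : ∀ (y : Fin 4 → ZMod 2) (φ G : ZMod 2),
    (∀ a, (dg 4 a + φ) * y a + ∑ b, b2 (ua a b) * y b + G = 0) →
      ∑ a, y a = 0 ∧ (G = 0 → (∀ a, y a = y 0) ∧ (φ = 0 → y 0 = 0)) := by
  decide

/-- a partial unit -/
lemma unit_part : ∀ (p : Fin 5) (y : Fin 4 → ZMod 2), (∀ b : Fin 4, (p : ℕ) ≤ b → y b = 0) →
    (∀ a : Fin 4, (a : ℕ) < p → dg p a * y a + ∑ b, b2 (ua a b) * y b = 0) → ∀ a, y a = 0 := by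
  decide

/-- a unit which is on -/
lemma unit_on : ∀ (a : Fin 4) (t : ZMod 2),
    (dg 4 a + 1) * t + ∑ b, b2 (ua a b) * t = 0 := by
  decide

/-! ## The graph -/

section Graph

variable {f : ℕ → ℕ} {u : ℕ → Fin 4 → ℕ}

/-- `j` is in a unit which the later vertex `k` is joined to -/
def RR (f : ℕ → ℕ) (u : ℕ → Fin 4 → ℕ) (j k : ℕ) : Prop :=
  ∃ i a, j = u i a ∧ (col f k).testBit (gb i) = true

/-- `j` and `k` are in one unit and they are joined -/
def QQ (u : ℕ → Fin 4 → ℕ) (j k : ℕ) : Prop :=
  ∃ i a b, j = u i a ∧ k = u i b ∧ ua a b = true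

open Classical in
/-- the graph -/
noncomputable def gx (f : ℕ → ℕ) (u : ℕ → Fin 4 → ℕ) (j k : ℕ) : Bool :=
  decide (RR f u j k ∨ RR f u k j ∨ QQ u j k)

lemma QQ_symm {j k : ℕ} (h : QQ u j k) : QQ u k j := by
  obtain ⟨i, a, b, h1, h2, h3⟩ := h
  exact ⟨i, b, a, h2, h1, by rw [ua_symm]; exact h3⟩

lemma gx_symm (f : ℕ → ℕ) (u : ℕ → Fin 4 → ℕ) (j k : ℕ) : gx f u j k = gx f u k j := by
  classical
  unfold gx
  rw [decide_eq_decide]
  constructor
  · rintro (h | h | h)
    · exact Or.inr (Or.inl h)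
    · exact Or.inl h
    · exact Or.inr (Or.inr (QQ_symm h))
  · rintro (h | h | h)
    · exact Or.inr (Or.inl h)
    · exact Or.inl h
    · exact Or.inr (Or.inr (QQ_symm h))

lemma RR_lt (hu : Units f u) {j k : ℕ} (h : RR f u j k) : j < k := by
  obtain ⟨i, a, rfl, h⟩ := h
  exact hu.bit i a k h

lemma RR_QQ (hu : Units f u) {j k : ℕ} (h : RR f u j k) (h' : QQ u j k) : False := by
  obtain ⟨i, a, h1, h2⟩ := h
  obtain ⟨i', a', b', h3, h4, h5⟩ := h'
  obtain ⟨h6, -⟩ := hu.inj i i' a a' (h1.symm.trans h3)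
  subst h6
  have := hu.bit i b' k h2
  omega

open Classical in
lemma b2_gx (hu : Units f u) (j k : ℕ) : b2 (gx f u j k) =
    b2 (decide (RR f u j k)) + b2 (decide (RR f u k j)) + b2 (decide (QQ u j k)) := by
  unfold gx
  by_cases h1 : RR f u j k
  · have h2 : ¬ RR f u k j := fun h => by
      have := RR_lt hu h
      have := RR_lt hu h1
      omega
    have h3 : ¬ QQ u j k := RR_QQ hu h1
    simp [h1, h2, h3, b2]
  · by_cases h2 : RR f u k j
    · have h3 : ¬ QQ u j k := fun h => RR_QQ hu h2 (QQ_symm h)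
      simp [h1, h2, h3, b2]
    · simp [h1, h2]
      simp [b2]

open Classical in
lemma RR_u (hu : Units f u) (i : ℕ) (a : Fin 4) (k : ℕ) :
    b2 (decide (RR f u (u i a) k)) = b2 ((col f k).testBit (gb i)) := by
  congr 1
  by_cases h : (col f k).testBit (gb i) = true
  · rw [h, decide_eq_true_iff]
    exact ⟨i, a, rfl, h⟩
  · rw [Bool.not_eq_true] at h
    rw [h, decide_eq_false_iff_not]
    rintro ⟨i', a', h1, h2⟩
    obtain ⟨h3, -⟩ := hu.inj i i' a a' h1
    subst h3
    rw [h] at h2
    exact absurd h2 (by decide)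

open Classical in
lemma QQ_u (hu : Units f u) (i : ℕ) (a : Fin 4) (k : ℕ) :
    b2 (decide (QQ u (u i a) k)) = ∑ b, if k = u i b then b2 (ua a b) else 0 := by
  by_cases h : ∃ b, k = u i b
  · obtain ⟨b, rfl⟩ := h
    rw [sum_eq_single b]
    · rw [if_pos rfl]
      congr 1
      by_cases h' : ua a b = true
      · rw [h', decide_eq_true_iff]
        exact ⟨i, a, b, rfl, rfl, h'⟩
      · rw [Bool.not_eq_true] at h'
        rw [h', decide_eq_false_iff_not]
        rintro ⟨i', a', b', h1, h2, h3⟩
        obtain ⟨h4, h5⟩ := hu.inj i i' a a' h1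
        obtain ⟨-, h6⟩ := hu.inj i i' b b' h2
        subst h5
        subst h6
        rw [h'] at h3
        exact absurd h3 (by decide)
    · intro b' _ hb'
      rw [if_neg]
      intro h'
      exact hb' (hu.inj i i b b' h').2.symm
    · intro h'
      exact absurd (mem_univ b) h'
  · have h1 : ¬ QQ u (u i a) k := by
      rintro ⟨i', a', b', h1, h2, h3⟩
      obtain ⟨h4, -⟩ := hu.inj i i' a a' h1
      subst h4
      exact h ⟨b', h2⟩
    rw [decide_eq_false h1, sum_eq_zero]
    · rfl
    · intro b _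
      rw [if_neg]
      exact fun h' => h ⟨b, h'⟩

open Classical in
/-- the entry of the diagonal at the beginning -/
noncomputable def bt (u : ℕ → Fin 4 → ℕ) (j : ℕ) : ZMod 2 :=
  if ∃ i a, j = u i a ∧ ub a = false then 0 else 1

lemma bt_u (hu : Units f u) (i : ℕ) (a : Fin 4) : bt u (u i a) = b2 (ub a) := by
  classical
  unfold bt
  by_cases h : ub a = false
  · rw [if_pos ⟨i, a, rfl, h⟩, h]
    rfl
  · rw [if_neg]
    · rw [Bool.not_eq_false] at h
      rw [h]
      rfl
    · rintro ⟨i', a', h1, h2⟩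
      obtain ⟨-, h3⟩ := hu.inj i i' a a' h1
      subst h3
      exact h h2

lemma bt_g {j : ℕ} (h : ∀ i a, j ≠ u i a) : bt u j = 1 := by
  classical
  unfold bt
  rw [if_neg]
  rintro ⟨i, a, h1, -⟩
  exact h i a h1

/-- the edges to the additional vertex -/
noncomputable def gv (f : ℕ → ℕ) (u : ℕ → Fin 4 → ℕ) (j : ℕ) : Bool :=
  decide (bt u j + ∑ k ∈ range j, b2 (gx f u j k) = 1)

lemma b2_dec1 (z : ZMod 2) : b2 (decide (z = 1)) = z := by
  revert z
  decide

lemma gx_self (hu : Units f u) (j : ℕ) : b2 (gx f u j j) = 0 := by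
  classical
  rw [b2_gx hu]
  have h1 : ¬ RR f u j j := fun h => lt_irrefl _ (RR_lt hu h)
  have h2 : ¬ QQ u j j := by
    rintro ⟨i, a, b, h1, h2, h3⟩
    obtain ⟨-, h4⟩ := hu.inj i i a b (h1.symm.trans h2)
    subst h4
    rw [ua_self] at h3
    exact absurd h3 (by decide)
  simp [h1, h2, b2]

/-- the diagonal -/
lemma diag_eq (hu : Units f u) {j n : ℕ} (hj : j < n) :
    b2 (gv f u j) + ∑ k ∈ range n, b2 (gx f u j k) =
      bt u j + ∑ k ∈ Ico (j + 1) n, b2 (gx f u j k) := by
  unfold gv
  rw [b2_dec1]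
  have h1 : ∑ k ∈ range n, b2 (gx f u j k) = ∑ k ∈ range (j + 1), b2 (gx f u j k) +
      ∑ k ∈ Ico (j + 1) n, b2 (gx f u j k) := by
    rw [range_eq_Ico, range_eq_Ico, sum_Ico_consecutive _ (by omega) (by omega)]
  rw [h1, sum_range_succ, gx_self hu, add_zero]
  have h2 : ∑ k ∈ range j, b2 (gx f u j k) + ∑ k ∈ range j, b2 (gx f u j k) = 0 :=
    CharTwo.add_self_eq_zero _
  linear_combination h2

/-- the number of the vertices of a unit -/
lemma exists_p (hu : Units f u) (i n : ℕ) : ∃ p : Fin 5, ∀ b : Fin 4, (b : ℕ) < p ↔ u i b < n := by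
  have h01 : u i 0 < u i 1 := hu.mono i (by decide)
  have h12 : u i 1 < u i 2 := hu.mono i (by decide)
  have h23 : u i 2 < u i 3 := hu.mono i (by decide)
  by_cases h3 : u i 3 < n
  · refine ⟨4, fun b => ?_⟩
    fin_cases b <;> simp <;> omega
  by_cases h2 : u i 2 < n
  · refine ⟨3, fun b => ?_⟩
    fin_cases b <;> simp <;> omega
  by_cases h1 : u i 1 < n
  · refine ⟨2, fun b => ?_⟩
    fin_cases b <;> simp <;> omega
  by_cases h0 : u i 0 < n
  · refine ⟨1, fun b => ?_⟩
    fin_cases b <;> simp <;> omega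
  · refine ⟨0, fun b => ?_⟩
    fin_cases b <;> simp <;> omega

/-- the diagonal at a vertex of a unit -/
lemma diag_u (hu : Units f u) (h0 : f 0 = 0) {i n : ℕ} {a : Fin 4} (hj : u i a < n) {p : Fin 5}
    (hp : ∀ b : Fin 4, (b : ℕ) < p ↔ u i b < n) :
    b2 (gv f u (u i a)) + ∑ k ∈ range n, b2 (gx f u (u i a) k) =
      dg p a + b2 ((f n).testBit (gb i)) := by
  classical
  rw [diag_eq hu hj, bt_u hu]
  unfold dg
  have h1 : ∀ k ∈ Ico (u i a + 1) n, b2 (gx f u (u i a) k) =
      b2 ((col f k).testBit (gb i)) + ∑ b, if k = u i b then b2 (ua a b) else 0 := by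
    intro k hk
    rw [mem_Ico] at hk
    have h2 : ¬ RR f u k (u i a) := fun h => by
      have := RR_lt hu h
      omega
    rw [b2_gx hu, RR_u hu, QQ_u hu, decide_eq_false h2]
    simp [b2]
  have h2 : ∑ k ∈ Ico (u i a + 1) n, b2 ((col f k).testBit (gb i)) =
      b2 ((f n).testBit (gb i)) := by
    rw [← sum_col h0 n]
    apply sum_subset
    · intro k hk
      rw [mem_Ico] at hk
      exact mem_range.2 hk.2
    · intro k hk hk'
      rw [mem_range] at hk
      rw [mem_Ico] at hk'
      cases hb : (col f k).testBit (gb i) with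
      | false => rfl
      | true =>
        have := hu.bit i a k hb
        omega
  have h3 : ∑ k ∈ Ico (u i a + 1) n, ∑ b, (if k = u i b then b2 (ua a b) else 0) =
      ∑ b, if a < b ∧ (b : ℕ) < p then b2 (ua a b) else 0 := by
    rw [sum_comm]
    refine sum_congr rfl fun b _ => ?_
    rw [sum_ite_eq']
    have : u i b ∈ Ico (u i a + 1) n ↔ a < b ∧ (b : ℕ) < p := by
      rw [mem_Ico, hp, Nat.succ_le_iff, (hu.mono i).lt_iff_lt]
    by_cases h : a < b ∧ (b : ℕ) < p
    · rw [if_pos (this.2 h), if_pos h]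
    · rw [if_neg fun h' => h (this.1 h'), if_neg h]
  rw [sum_congr rfl h1, sum_add_distrib, h2, h3]
  ring

/-- the diagonal at a vertex outside of the units -/
lemma diag_g (hu : Units f u) {j n : ℕ} (hj : j < n) (hg : ∀ i a, j ≠ u i a) :
    b2 (gv f u j) + ∑ k ∈ range n, b2 (gx f u j k) = 1 := by
  classical
  rw [diag_eq hu hj, bt_g hg, sum_eq_zero, add_zero]
  intro k hk
  rw [mem_Ico] at hk
  have h1 : ¬ RR f u j k := by
    rintro ⟨i, a, h1, -⟩
    exact hg i a h1
  have h2 : ¬ RR f u k j := fun h => by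
    have := RR_lt hu h
    omega
  have h3 : ¬ QQ u j k := by
    rintro ⟨i, a, b, h1, -, -⟩
    exact hg i a h1
  rw [b2_gx hu, decide_eq_false h1, decide_eq_false h2, decide_eq_false h3]
  simp [b2]

/-- sums over the units -/
lemma grp (hu : Units f u) {n : ℕ} {W : ℕ → ZMod 2} (hW : ∀ k, n ≤ k → W k = 0) (F : ℕ → ZMod 2)
    (hg : ∀ k < n, (∀ i a, k ≠ u i a) → F k * W k = 0)
    (hi : ∀ i, ∑ a, F (u i a) * W (u i a) = 0) : ∑ k ∈ range n, F k * W k = 0 := by
  classical
  have hinj : Function.Injective fun i => u i 0 := fun i i' h => (hu.inj i i' 0 0 h).1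
  have hfin : {i | u i 0 < n}.Finite :=
    Set.Finite.preimage (f := fun i => u i 0) hinj.injOn (Set.finite_Iio n)
  obtain ⟨S, hS⟩ : ∃ S : Finset ℕ, S = (hfin.toFinset ×ˢ (univ : Finset (Fin 4))).image
    (fun p => u p.1 p.2) := ⟨_, rfl⟩
  have h1 : ∑ k ∈ S, F k * W k = 0 := by
    rw [hS, sum_image, sum_product]
    · exact sum_eq_zero fun i _ => hi i
    · intro p _ q _ h
      obtain ⟨h1, h2⟩ := hu.inj _ _ _ _ h
      exact Prod.ext h1 h2
  have h2 : ∑ k ∈ S, F k * W k = ∑ k ∈ range n ∪ S, F k * W k := by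
    apply sum_subset subset_union_right
    intro k hk hk'
    rw [mem_union, mem_range] at hk
    have hkn : k < n := hk.resolve_right hk'
    apply hg k hkn
    intro i a h
    apply hk'
    rw [hS]
    refine mem_image.2 ⟨(i, a), mem_product.2 ⟨?_, mem_univ _⟩, h.symm⟩
    rw [Set.Finite.mem_toFinset]
    have : u i 0 ≤ u i a := (hu.mono i).monotone (Fin.zero_le a)
    exact lt_of_le_of_lt this (h ▸ hkn)
  have h3 : ∑ k ∈ range n, F k * W k = ∑ k ∈ range n ∪ S, F k * W k := by
    apply sum_subset subset_union_left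
    intro k _ hk'
    rw [mem_range, not_lt] at hk'
    rw [hW k hk', mul_zero]
  rw [h3, ← h2, h1]

/-- the equation at the vertex `j` -/
def Eqn (f : ℕ → ℕ) (u : ℕ → Fin 4 → ℕ) (n : ℕ) (W : ℕ → ZMod 2) (j : ℕ) : Prop :=
  (b2 (gv f u j) + ∑ k ∈ range n, b2 (gx f u j k)) * W j +
    ∑ k ∈ range n, b2 (gx f u j k) * W k = 0

open Classical in
/-- the sum over the earlier units -/
noncomputable def et (f : ℕ → ℕ) (u : ℕ → Fin 4 → ℕ) (n : ℕ) (W : ℕ → ZMod 2) (j : ℕ) : ZMod 2 :=
  ∑ k ∈ range n, b2 (decide (RR f u k j)) * W k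

/-- the sum over the later vertices -/
def tt (f : ℕ → ℕ) (n : ℕ) (W : ℕ → ZMod 2) (J : ℕ) : ZMod 2 :=
  ∑ k ∈ range n, b2 ((col f k).testBit J) * W k

lemma eqn_u (hu : Units f u) (h0 : f 0 = 0) {i n : ℕ} {W : ℕ → ZMod 2}
    (hW : ∀ k, n ≤ k → W k = 0) {a : Fin 4} (hj : u i a < n) {p : Fin 5}
    (hp : ∀ b : Fin 4, (b : ℕ) < p ↔ u i b < n) : Eqn f u n W (u i a) ↔
      (dg p a + b2 ((f n).testBit (gb i))) * W (u i a) + ∑ b, b2 (ua a b) * W (u i b) +
        (tt f n W (gb i) + et f u n W (u i a)) = 0 := by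
  classical
  unfold Eqn
  rw [diag_u hu h0 hj hp]
  have h1 : ∑ k ∈ range n, b2 (gx f u (u i a) k) * W k = tt f n W (gb i) + et f u n W (u i a) +
      ∑ b, b2 (ua a b) * W (u i b) := by
    unfold tt et
    have h2 : ∑ b, b2 (ua a b) * W (u i b) =
        ∑ k ∈ range n, (∑ b, if k = u i b then b2 (ua a b) else 0) * W k := by
      have h3 : ∀ k, (∑ b, if k = u i b then b2 (ua a b) else 0) * W k =
          ∑ b, if k = u i b then b2 (ua a b) * W k else 0 := by
        intro k
        rw [sum_mul]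
        exact sum_congr rfl fun b _ => by rw [ite_mul, zero_mul]
      rw [sum_congr rfl fun k _ => h3 k, sum_comm]
      refine sum_congr rfl fun b _ => ?_
      rw [sum_ite_eq']
      by_cases h : u i b < n
      · rw [if_pos (mem_range.2 h)]
      · rw [if_neg (fun h' => h (mem_range.1 h')), hW _ (not_lt.1 h), mul_zero]
    rw [h2, ← sum_add_distrib, ← sum_add_distrib]
    refine sum_congr rfl fun k _ => ?_
    rw [b2_gx hu, RR_u hu, QQ_u hu]
    ring
  rw [h1]
  constructor
  · intro h
    linear_combination h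
  · intro h
    linear_combination h

lemma eqn_g (hu : Units f u) {j n : ℕ} {W : ℕ → ZMod 2} (hj : j < n) (hg : ∀ i a, j ≠ u i a) :
    Eqn f u n W j ↔ W j + et f u n W j = 0 := by
  classical
  unfold Eqn et
  rw [diag_g hu hj hg, one_mul]
  have h1 : ∀ k, b2 (gx f u j k) = b2 (decide (RR f u k j)) := by
    intro k
    have h1 : ¬ RR f u j k := by
      rintro ⟨i, a, h1, -⟩
      exact hg i a h1
    have h3 : ¬ QQ u j k := by
      rintro ⟨i, a, b, h1, -, -⟩
      exact hg i a h1
    rw [b2_gx hu, decide_eq_false h1, decide_eq_false h3]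
    simp [b2]
  simp only [h1]

lemma et_zero (hu : Units f u) {j n : ℕ} {W : ℕ → ZMod 2} (hW : ∀ k, n ≤ k → W k = 0)
    (hj : j < n) (h : ∀ i, u i 3 < n → ∑ a, W (u i a) = 0) : et f u n W j = 0 := by
  classical
  unfold et
  apply grp hu hW
  · intro k _ hg
    have : ¬ RR f u k j := by
      rintro ⟨i, a, h1, -⟩
      exact hg i a h1
    rw [decide_eq_false this]
    simp [b2]
  · intro i
    simp only [RR_u hu]
    rw [← mul_sum]
    cases hb : (col f j).testBit (gb i) with
    | false => simp [b2]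
    | true =>
      have := hu.bit i 3 j hb
      rw [h i (by omega), mul_zero]

lemma tt_zero (hu : Units f u) {n : ℕ} {W : ℕ → ZMod 2} (hW : ∀ k, n ≤ k → W k = 0)
    (hg : ∀ j, (∀ i a, j ≠ u i a) → W j = 0) (h : ∀ i, ∑ a, W (u i a) = 0) (J : ℕ) :
    tt f n W J = 0 := by
  unfold tt
  apply grp hu hW
  · intro k _ hk
    rw [hg k hk, mul_zero]
  · intro i
    have : ∀ a, b2 ((col f (u i a)).testBit J) = b2 ((col f (u i 0)).testBit J) := fun a => by
      rw [hu.cl i a]
    simp only [this]
    rw [← mul_sum, h i, mul_zero]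

/-- a unit which is not complete is off -/
lemma off_of (hu : Units f u) (h0 : f 0 = 0) {i n : ℕ} (h : n ≤ u i 3) :
    (f n).testBit (gb i) = false := by
  have h1 := sum_col h0 n (gb i)
  rw [sum_eq_zero] at h1
  · cases hb : (f n).testBit (gb i) with
    | false => rfl
    | true =>
      rw [hb] at h1
      exact absurd h1 (by decide)
  · intro k hk
    rw [mem_range] at hk
    cases hb : (col f k).testBit (gb i) with
    | false => rfl
    | true =>
      have := hu.bit i 3 k hb
      omega

/-- **the kernel** -/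
theorem ker_iff (hu : Units f u) (h0 : f 0 = 0) {n : ℕ} {W : ℕ → ZMod 2}
    (hW : ∀ k, n ≤ k → W k = 0) : (∀ j < n, Eqn f u n W j) ↔
      (∀ j, (∀ i a, j ≠ u i a) → W j = 0) ∧ ∀ i, (∀ a, W (u i a) = W (u i 0)) ∧
        ((f n).testBit (gb i) = false → W (u i 0) = 0) := by
  constructor
  · intro h
    have s1 : ∀ i, u i 3 < n → ∑ a, W (u i a) = 0 := by
      intro i hi
      have hp : ∀ b : Fin 4, (b : ℕ) < (4 : Fin 5) ↔ u i b < n := by
        intro b
        have h1 : u i b ≤ u i 3 := (hu.mono i).monotone (by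
          rw [Fin.le_def]
          have := b.2
          change (b : ℕ) ≤ 3
          omega)
        have h2 : (b : ℕ) < ((4 : Fin 5) : ℕ) := b.2
        exact ⟨fun _ => by omega, fun _ => h2⟩
      obtain ⟨e, he⟩ : ∃ e, e = et f u n W (u i 0) := ⟨_, rfl⟩
      have het : ∀ a, et f u n W (u i a) = e := by
        classical
        intro a
        rw [he]
        unfold et
        refine sum_congr rfl fun k _ => ?_
        congr 2
        rw [decide_eq_decide]
        unfold RR
        rw [hu.cl i a]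
      refine (unit_full (fun a => W (u i a)) (b2 ((f n).testBit (gb i)))
        (tt f n W (gb i) + e) fun a => ?_).1
      have h1 : u i a < n := (hp a).1 (by
        change (a : ℕ) < 4
        exact a.2)
      have h2 := (eqn_u hu h0 hW h1 hp).1 (h _ h1)
      rw [het a] at h2
      exact h2
    have s2 : ∀ j < n, et f u n W j = 0 := fun j hj => et_zero hu hW hj s1
    have s3 : ∀ j, (∀ i a, j ≠ u i a) → W j = 0 := by
      intro j hg
      by_cases hj : j < n
      · have h1 := (eqn_g hu hj hg).1 (h j hj)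
        rwa [s2 j hj, add_zero] at h1
      · exact hW j (not_lt.1 hj)
    have s4 : ∀ i, n ≤ u i 3 → ∀ a, W (u i a) = 0 := by
      intro i hi
      obtain ⟨p, hp⟩ := exists_p hu i n
      apply unit_part p (fun a => W (u i a))
      · intro b hb
        apply hW
        by_contra hcon
        have := (hp b).2 (not_le.1 hcon)
        omega
      · intro a ha
        have h1 : u i a < n := (hp a).1 ha
        have h2 := (eqn_u hu h0 hW h1 hp).1 (h _ h1)
        have h3 : tt f n W (gb i) = 0 := by
          unfold tt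
          apply sum_eq_zero
          intro k hk
          rw [mem_range] at hk
          cases hb : (col f k).testBit (gb i) with
          | false => simp [b2]
          | true =>
            have := hu.bit i 3 k hb
            omega
        have h4 : b2 false = 0 := rfl
        rw [off_of hu h0 hi, h3, s2 _ h1, h4, add_zero, add_zero, add_zero] at h2
        exact h2
    have s5 : ∀ i, ∑ a, W (u i a) = 0 := by
      intro i
      by_cases hi : u i 3 < n
      · exact s1 i hi
      · exact sum_eq_zero fun a _ => s4 i (not_lt.1 hi) a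
    refine ⟨s3, fun i => ?_⟩
    by_cases hi : u i 3 < n
    · have hp : ∀ b : Fin 4, (b : ℕ) < (4 : Fin 5) ↔ u i b < n := by
        intro b
        have h1 : u i b ≤ u i 3 := (hu.mono i).monotone (by
          rw [Fin.le_def]
          have := b.2
          change (b : ℕ) ≤ 3
          omega)
        have h2 : (b : ℕ) < ((4 : Fin 5) : ℕ) := b.2
        exact ⟨fun _ => by omega, fun _ => h2⟩
      have h1 := (unit_full (fun a => W (u i a)) (b2 ((f n).testBit (gb i))) 0 fun a => by
        have h1 : u i a < n := (hp a).1 (by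
          change (a : ℕ) < 4
          exact a.2)
        have h2 := (eqn_u hu h0 hW h1 hp).1 (h _ h1)
        rw [tt_zero hu hW s3 s5, s2 _ h1, add_zero] at h2
        exact h2).2 rfl
      refine ⟨h1.1, fun h' => h1.2 ?_⟩
      rw [h']
      rfl
    · exact ⟨fun a => by rw [s4 i (not_lt.1 hi) a, s4 i (not_lt.1 hi) 0],
        fun _ => s4 i (not_lt.1 hi) 0⟩
  · rintro ⟨hg, hc⟩ j hj
    have s5 : ∀ i, ∑ a, W (u i a) = 0 := by
      intro i
      rw [sum_congr rfl fun a _ => (hc i).1 a, sum_const, card_univ, Fintype.card_fin]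
      generalize W (u i 0) = t
      revert t
      decide
    have het := et_zero hu hW hj fun i _ => s5 i
    by_cases hj' : ∀ i a, j ≠ u i a
    · rw [eqn_g hu hj hj', hg j hj', het, add_zero]
    · push Not at hj'
      obtain ⟨i, a, rfl⟩ := hj'
      by_cases hb : (f n).testBit (gb i) = false
      · obtain ⟨p, hp⟩ := exists_p hu i n
        rw [eqn_u hu h0 hW hj hp, het, tt_zero hu hW hg s5]
        simp only [(hc i).1, (hc i).2 hb, mul_zero, sum_const_zero, add_zero]
      · have hi : u i 3 < n := by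
          by_contra hcon
          exact hb (off_of hu h0 (not_lt.1 hcon))
        rw [Bool.not_eq_false] at hb
        have hp : ∀ b : Fin 4, (b : ℕ) < (4 : Fin 5) ↔ u i b < n := by
          intro b
          have h1 : u i b ≤ u i 3 := (hu.mono i).monotone (by
            rw [Fin.le_def]
            have := b.2
            change (b : ℕ) ≤ 3
            omega)
          have h2 : (b : ℕ) < ((4 : Fin 5) : ℕ) := b.2
          exact ⟨fun _ => by omega, fun _ => h2⟩
        rw [eqn_u hu h0 hW hj hp, het, tt_zero hu hW hg s5, hb]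
        simp only [(hc i).1, add_zero]
        exact unit_on a _

end Graph

end Pool.Agent.K1H6.PR
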