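import Pool.Agent.K1H97.ST.Main
import Pool.Agent.K1H6.PR.Cnt

/-!
# Prescribed Selmer ranks: the good primes
-/

set_option autoImplicit false

namespace Pool.Agent.K1H6.PR

open Finset
open Pool.Agent.Y703.CQ (nr)
open Pool.Agent.K1H97.ST (GP St Lap Ker UQ ker_card)

/-- the sequence with the additional prime -/
def sq0 (q : ℕ) (r : ℕ → ℕ) : ℕ → ℕ := fun j => Nat.casesOn j q r

lemma sq0_zero (q : ℕ) (r : ℕ → ℕ) : sq0 q r 0 = q := rfl

lemma sq0_succ (q : ℕ) (r : ℕ → ℕ) (j : ℕ) : sq0 q r (j + 1) = r j := rfl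

/-- **all sequences of coranks** -/
theorem gp_seq {k : ℕ} {x : Fin k → ℤ × ℤ} {q : ℕ} (h : GP x q) {f : ℕ → ℕ}
    (hf : ∃ (g : ℕ → ℕ → Bool) (v : ℕ → Bool), (∀ j l, g j l = g l j) ∧
      ∀ n, Nat.card (KerL (fun j l : Fin n => b2 (g j l)) (fun j : Fin n => b2 (v j))) =
        2 ^ (f n)) : ∃ r : ℕ → ℕ, StrictMono r ∧ r 0 = q ∧ (∀ j, (r j).Prime) ∧
      ∀ n i, St (x i) ((∏ j ∈ range (n + 1), r j : ℕ) : ℤ) (f n) := by
  classical
  obtain ⟨hq, hq8, M, hM, h8, hqM, hSt⟩ := h
  obtain ⟨g, v, hg, hgv⟩ := hf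
  obtain ⟨r, r1, r2, r3, r4⟩ := exists_primes hM ((by norm_num : 4 ∣ 8).trans h8) hq (by omega)
    hqM g hg v
  refine ⟨sq0 q r, ?_, rfl, ?_, fun n i => ?_⟩
  · apply strictMono_nat_of_lt_succ
    intro n
    cases n with
    | zero => exact (r2 0).2.2
    | succ n => exact r1 (Nat.lt_succ_self n)
  · intro j
    cases j with
    | zero => exact hq
    | succ j => exact (r2 j).1
  · have h1 := hSt n (fun i : Fin n => r i) (fun a b hab => Fin.ext (r1.injective hab))
      (fun j => ⟨(r2 j).1, (r2 j).2.1, fun h' => by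
        have := (r2 j).2.2
        rw [← h'] at this
        exact lt_irrefl _ this⟩) i
    have hprod : q * ∏ j : Fin n, r j = ∏ j ∈ range (n + 1), sq0 q r j := by
      rw [prod_range_succ', sq0_zero, mul_comm]
      congr 1
      rw [← Fin.prod_univ_eq_prod_range]
      rfl
    rw [hprod] at h1
    have h2 : Ker q (fun i : Fin n => r i) =
        KerL (fun j k : Fin n => b2 (g j k)) (fun j : Fin n => b2 (v j)) := by
      ext w
      unfold Ker KerL
      refine forall_congr' fun j => ?_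
      rw [r3 j]
      have : ∑ k : Fin n, nr (r j) (r k) * (w k + w j) =
          ∑ k : Fin n, b2 (g j k) * (w k + w j) := by
        refine sum_congr rfl fun k _ => ?_
        by_cases hjk : j = k
        · subst hjk
          have h0 : w j + w j = 0 := CharTwo.add_self_eq_zero _
          rw [h0, mul_zero, mul_zero]
        · rw [r4 j k (fun h' => hjk (Fin.ext h'))]
      rw [this]
    have h3 := hgv n
    rw [← h2, Nat.card_coe_set_eq, ker_card] at h3
    have h4 : n - (Lap q (fun i : Fin n => r i)).rank = f n := Nat.pow_right_injective le_rfl h3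
    rw [h4] at h1
    exact h1

/-- **linearly bounded sequences and walks** -/
theorem gp_main {k : ℕ} {x : Fin k → ℤ × ℤ} {q : ℕ} (h : GP x q) {f : ℕ → ℕ}
    (hf : (∀ n, 11 * f n ≤ n) ∨ Walk f) : ∃ r : ℕ → ℕ, StrictMono r ∧ r 0 = q ∧
      (∀ j, (r j).Prime) ∧ ∀ n i, St (x i) ((∏ j ∈ range (n + 1), r j : ℕ) : ℤ) (f n) := by
  apply gp_seq h
  rcases hf with hf | hf
  · exact exists_jump hf
  · exact ⟨wx f, wv f, wx_symm f, card_KerL hf⟩

end Pool.Agent.K1H6.PR
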